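import Pool.Agent.W5h68.SP.Main
import Pool.Agent.W5h93.TBU.Main
import Pool.Agent.W5h93.TBU.QDefs

/-!
# The conjecture of Jannsen and systems of equations in few monomials
-/

set_option autoImplicit false

open CategoryTheory AlgebraicGeometry MvPolynomial Pool.Agent.Y116.UV Pool.Agent.Z125.UN
  Pool.Agent.W5h93.TBU Pool.Agent.W5h68.SP

namespace Pool.Agent.W5h68.FM.MP_2ce3e7_ag

/-- **Jannsen's conjecture and systems of equations in few monomials.** Let `k` be a finite field and `T`
motivic and `ℓ`-adic homology of the schemes over `k`. If `TB` is true for all smooth schemes of
dimension at most `n`, then it is true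

* for the inverse images of the cones of dimension at most `n + 1` under all monomial maps between affine
  spaces, also with additional equations with at most two terms;
* for the closed subschemes of affine spaces given by `c` linearly independent equations with at most
  `c + n + 1` monomials altogether, also with additional equations with at most two terms.

For `n = 1`, where `TB` is known, this is `TB` for example for all hypersurfaces given by polynomials
with three terms, in all dimensions and with all singularities. -/
theorem result (k : Type) [Field k] [Finite k] (Ω : Type) [Field Ω] [CharZero Ω]
    (T : Data Ω k) (hT : T.IsInvariant) (n : ℕ) (h : T.TBDim n) :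
    Cones n T.TB ∧ Sparse n T.TB := by
  have hB := bnd_tb hT
  have h1 : ∀ (A : Type) [CommRing A] [Algebra k A] [Algebra.FiniteType k A],
      ringKrullDim A ≤ n → T.TB (aff k A) := by
    intro A _ _ _ hA
    refine dim_smooth hB n h (aff k A) (ft_aff True) ?_
    rw [topDim_aff]
    exact hA
  exact ⟨cones hB h1, sparse hB h1⟩

end Pool.Agent.W5h68.FM.MP_2ce3e7_ag
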