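import Pool.Agent.W5h68.SP.Main
import Pool.Agent.W5h93.QD.MotQ
import Pool.Agent.Z125.UN.MotUni

/-!
# Schur-finiteness of motives and systems of equations in few monomials
-/

set_option autoImplicit false

open CategoryTheory MonoidalCategory AlgebraicGeometry MvPolynomial Pool.Agent.TH137.DG
  Pool.Agent.Y116.UV Pool.Agent.Z125.UN Pool.Agent.W5h93.QD Pool.Agent.W5h68.SP

namespace Pool.Agent.W5h68.FM.MP_fc2ced_ag

universe v u

variable {k : Type} [Field k] {C : Type u} [Category.{v} C] [MonoidalCategory C]
  [SymmetricCategory C] [Preadditive C] [Linear ℚ C] [Limits.HasZeroObject C] [HasShift C ℤ]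
  [∀ n : ℤ, (shiftFunctor C n).Additive] [Pretriangulated C] {D : Motives k C}

/-- **Schur-finiteness of motives and systems of equations in few monomials.** Let `k` be a perfect field.
If the motives of the smooth schemes of dimension at most `n` are Schur-finite, then so are the motives
with compact support (and the motives, in the smooth case)

* of the inverse images of the cones of dimension at most `n + 1` under all monomial maps between affine
  spaces, also with additional equations with at most two terms;
* of the closed subschemes of affine spaces given by `c` linearly independent equations with at most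
  `c + n + 1` monomials altogether, also with additional equations with at most two terms.

The conclusions are true for `n = 1`, for example for all hypersurfaces given by polynomials with three
terms. -/
theorem result [PerfectField k] (hD : IsMotives D) :
    (∀ n : ℕ, SFDim D n → Cones n (SF D) ∧ Sparse n (SF D)) ∧
      Cones 1 (SF D) ∧ Sparse 1 (SF D) := by
  have hB := bnd_sf hD
  have key : ∀ n : ℕ, SFDim D n → Cones n (SF D) ∧ Sparse n (SF D) := by
    intro n h
    have h1 : ∀ (A : Type) [CommRing A] [Algebra k A] [Algebra.FiniteType k A],
        ringKrullDim A ≤ n → IsSchurFinite (D.Mc (aff k A)) := by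
      intro A _ _ _ hA
      refine dim_smooth hB n (fun X hX hs hX' => (hD.duality X hX hs).mp (h X hX hs hX'))
        (aff k A) (ft_aff True) ?_
      rw [topDim_aff]
      exact hA
    have h2 : ∀ (A : Type) [CommRing A] [Algebra k A] [Algebra.FiniteType k A],
        IsSchurFinite (D.Mc (aff k A)) → SF D (aff k A) := fun A _ _ _ hA =>
      ⟨hA, fun hs => (hD.duality _ (ft_aff True) hs).mpr hA⟩
    exact ⟨fun m N r t g α b hg hd hb => h2 _ (cones hB h1 m N r t g α b hg hd hb),
      fun N c t f S b hf hS hc hb => h2 _ (sparse hB h1 N c t f S b hf hS hc hb)⟩
  refine ⟨key, key 1 fun X hX hs hn => hD.curves X hX hs ?_⟩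
  exact_mod_cast hn

end Pool.Agent.W5h68.FM.MP_fc2ced_ag
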